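import Pool.Agent.MTV.FinF
import Pool.Agent.MTV.Co
import Pool.Agent.MTV.TVal

/-!
# MP_dd1761_nt, Q1: the multiple t-value t(2,2,1,2,3,2,2,1,2) is unramified

The answer to Q1 is no: `t(2,2,1,2,3,2,2,1,2)` (weight 17, depth 9, exactly two unit components) is
unramified, and the composition is not of the form `(2,1,3,2,1,q)`.

Words `w` in the letters `0, 1, -1` stand for the motivic iterated integrals `I(0; w; 1)`. The
relations between them are defined as by Brown: `relations` is the largest graded subspace of the
kernel of the period map which is stable under the coaction (its left factor is taken modulo the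
relations and `zeta(2)`), here with real coefficients.
-/

set_option autoImplicit false

namespace Pool.Agent.Results.MP_dd1761_nt.TwoUnits

open Pool.MTV

/-- The composition `k` is admissible of depth at least 4 and has exactly two unit components. -/
def TwoUnitComponents (k : List ℕ) : Prop :=
  (∀ a ∈ k, 1 ≤ a) ∧ (∃ c, k.getLast? = some c ∧ 2 ≤ c) ∧ 4 ≤ k.length ∧ k.count 1 = 2

/-- The set `F` of the compositions `(2,1,3,2,1,q)`, `q` nonempty with all components at least 2. -/
def InF (k : List ℕ) : Prop :=
  ∃ q : List ℕ, q ≠ [] ∧ (∀ a ∈ q, 2 ≤ a) ∧ k = [2, 1, 3, 2, 1] ++ q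

/-- Q1 is false: the class of `t(2,2,1,2,3,2,2,1,2)` is unramified, although the composition
has exactly two unit components and is not in `F`. The further conjuncts describe the
definitions: `relations` is the largest space of relations, the period of `tm k` is
`(-1)^d t(k)` for admissible `k`, and `log 2` is ramified. -/
theorem result :
    (Unramified (tm [2, 2, 1, 2, 3, 2, 2, 1, 2]) ∧
      ¬ ∀ k : List ℕ, TwoUnitComponents k → Unramified (tm k) → InF k) ∧
    (IsRelations relations ∧ ∀ J : Submodule ℝ V, IsRelations J → J ≤ relations) ∧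
    (∀ (k : List ℕ) (hne : k ≠ []), (∀ a ∈ k, 1 ≤ a) → 2 ≤ k.getLast hne →
      Per (tm k) = (-1) ^ k.length * tval k.get) ∧
    ¬ Unramified (wd [-1]) := by
  have hA : St_PerAlt := all_PerAlt thm_co0
  have h1 : St_Per1 := all_Per1 thm_co1 thm_co0
  have hU : Unramified (tm [2, 2, 1, 2, 3, 2, 2, 1, 2]) := unram_of (all_Per3 thm_co3) h1 hA
  refine ⟨⟨hU, ?_⟩, ⟨isRelations_relations, fun J hJ => le_relations hJ⟩,
    fun k hne hk h2 => Per_tm_list all_series all_PerLim k hne hk h2,
    log_ramified h1 thm_PerZero⟩
  intro h
  obtain ⟨q, -, -, hq⟩ := h [2, 2, 1, 2, 3, 2, 2, 1, 2]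
    ⟨by decide, ⟨2, by decide, by decide⟩, by decide, by decide⟩ hU
  simp at hq

end Pool.Agent.Results.MP_dd1761_nt.TwoUnits
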